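import Pool.Agent.Helper126.CpHomeo

open Set Topology Filter

namespace Pool.Agent.Results.MP_195fab_gt.CountableInvariance

open Pool.Agent.Helper126

/-- homeomorphic spaces have homeomorphic function spaces -/
def cpCongr {A B : Type*} [TopologicalSpace A] [TopologicalSpace B] (φ : A ≃ₜ B) : Cp A ≃ₜ Cp B where
  toFun g := ⟨fun b => g.1 (φ.symm b), g.2.comp φ.symm.continuous⟩
  invFun g := ⟨fun a => g.1 (φ a), g.2.comp φ.continuous⟩
  left_inv g := by ext a; simp
  right_inv g := by ext a; simp
  continuous_toFun := by
    refine Continuous.subtype_mk (continuous_pi fun b => ?_) _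
    exact (continuous_apply (φ.symm b)).comp continuous_subtype_val
  continuous_invFun := by
    refine Continuous.subtype_mk (continuous_pi fun a => ?_) _
    exact (continuous_apply (φ a)).comp continuous_subtype_val

/-- restriction along the identity does nothing -/
def cpId (X : Type*) [TopologicalSpace X] : Cp X ≃ₜ CpR (id : X → X) where
  toFun f := ⟨f.1, f.1, f.2, rfl⟩
  invFun f := ⟨f.1, by obtain ⟨g, hg, hgf⟩ := f.2; rw [← hgf]; exact hg⟩
  left_inv f := rfl
  right_inv f := rfl
  continuous_toFun := Continuous.subtype_mk continuous_subtype_val _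
  continuous_invFun := Continuous.subtype_mk continuous_subtype_val _

/-- If the iterated function spaces `C_p(C_p(X))` and `C_p(C_p(Y))` are homeomorphic and `Y` is
countable then `X` is countable. -/
theorem result (X Y : Type*) [TopologicalSpace X] [T35Space X] [TopologicalSpace Y] [T35Space Y]
    (h : Nonempty ({g : {f : X → ℝ // Continuous f} → ℝ // Continuous g} ≃ₜ
      {g : {f : Y → ℝ // Continuous f} → ℝ // Continuous g})) (hY : Countable Y) : Countable X := by
  obtain ⟨h⟩ := h
  obtain ⟨D, hD⟩ := cover_of_homeo (id : X → X) Function.injective_id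
    (fun a : Cp Y => a.1) IsInducing.subtypeVal (h.symm.trans (cpCongr (cpId X)))
  have h1 : (⋃ p, (D p : Set X)) = univ := eq_univ_of_forall fun x => by
    obtain ⟨p, hp⟩ := hD x
    exact mem_iUnion.mpr ⟨p, hp⟩
  have h2 : (⋃ p, (D p : Set X)).Countable := countable_iUnion fun p => (D p).countable_toSet
  rw [h1] at h2
  exact countable_univ_iff.mp h2

end Pool.Agent.Results.MP_195fab_gt.CountableInvariance
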